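import Pool.Agent.H27.ZF.TB

/-!
Board zf, row BS: the forms with large sums of squares of the coefficients.
-/

set_option autoImplicit false

namespace Pool.Agent.H36.ZF

open MeasureTheory Pool.Agent.H27.ZF
open Pool.Agent.H27.L1.H34.GM Pool.Agent.H27.L1.H34.GZ Pool.Agent.H27.L1.H34.GU
  Pool.Agent.H27.L1.H34.GA

/-- the number of dyadic blocks -/
theorem num_blocks (m : ℕ) (δ : ℝ) (hm : 1 ≤ m) (hδ : 0 < δ) : ∃ C : ℝ, 0 < C ∧
    ∀ (N : ℕ) (P : ℝ), 1 ≤ N → 1 ≤ P → ∃ K : ℕ, ((K : ℝ) + 1 ≤ C * ((N : ℝ) * P) ^ δ) ∧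
      (∀ r : ℕ, r ∈ Finset.range (K + 1) ↔ (2 : ℝ) ^ r ≤ N * P ^ m) := by
  have hl2 : 0 < Real.log 2 := Real.log_pos (by norm_num)
  refine ⟨1 + m / (Real.log 2 * δ), by positivity, fun N P hN hP => ?_⟩
  have hN1 : (1 : ℝ) ≤ N := by exact_mod_cast hN
  have hQ1 : (1 : ℝ) ≤ N * P ^ m := by
    have := one_le_pow₀ hP (n := m)
    nlinarith
  have hQ0 : (0 : ℝ) < N * P ^ m := by linarith
  have hX1 : (1 : ℝ) ≤ N * P := by nlinarith
  have hlog0 : 0 ≤ Real.log (N * P ^ m) := Real.log_nonneg hQ1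
  refine ⟨⌊Real.log (N * P ^ m) / Real.log 2⌋₊, ?_, fun r => ?_⟩
  · have h1 : ((⌊Real.log (N * P ^ m) / Real.log 2⌋₊ : ℕ) : ℝ) ≤
        Real.log (N * P ^ m) / Real.log 2 := Nat.floor_le (div_nonneg hlog0 hl2.le)
    have h2 : Real.log (N * P ^ m) ≤ m * Real.log (N * P) := by
      rw [Real.log_mul (by positivity) (by positivity), Real.log_mul (by positivity)
        (by positivity), Real.log_pow]
      have h3 : 0 ≤ Real.log N := Real.log_nonneg hN1
      have h4 : (1 : ℝ) ≤ m := by exact_mod_cast hm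
      nlinarith
    have h3 : Real.log (N * P) ≤ ((N : ℝ) * P) ^ δ / δ :=
      Real.log_le_rpow_div (by positivity) hδ
    have h4 : (1 : ℝ) ≤ ((N : ℝ) * P) ^ δ := Real.one_le_rpow hX1 hδ.le
    have h5 : Real.log (N * P ^ m) / Real.log 2 ≤ m / (Real.log 2 * δ) * ((N : ℝ) * P) ^ δ := by
      rw [div_le_iff₀ hl2]
      have h6 : (m : ℝ) * Real.log (N * P) ≤ m * (((N : ℝ) * P) ^ δ / δ) :=
        mul_le_mul_of_nonneg_left h3 (Nat.cast_nonneg m)
      have e : (m : ℝ) / (Real.log 2 * δ) * ((N : ℝ) * P) ^ δ * Real.log 2 =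
          m * (((N : ℝ) * P) ^ δ / δ) := by
        field_simp
      rw [e]
      linarith
    have e : (1 + (m : ℝ) / (Real.log 2 * δ)) * ((N : ℝ) * P) ^ δ =
        ((N : ℝ) * P) ^ δ + m / (Real.log 2 * δ) * ((N : ℝ) * P) ^ δ := by ring
    rw [e]
    linarith
  · rw [Finset.mem_range, Nat.lt_succ_iff, Nat.le_floor_iff (div_nonneg hlog0 hl2.le),
      le_div_iff₀ hl2, ← Real.log_pow, Real.log_le_log_iff (by positivity) hQ0]

open Classical in
theorem pf_BS (hRSP : T_RSP) (hLSF : T_LSF) : T_BS := by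
  intro m ε hm hε
  obtain ⟨C1, hC1, h1⟩ := hLSF m 1 (ε / 2) hm le_rfl (by linarith)
  obtain ⟨C2, hC2, h2⟩ := num_blocks m (ε / 2) hm (by linarith)
  refine ⟨C1 * C2, by positivity, ?_⟩
  intro N _ T D hsys P hP S _ _ F lam W hF A hA
  have hN : 1 ≤ N := Nat.one_le_iff_ne_zero.2 (NeZero.ne N)
  obtain ⟨K, hK1, hK2⟩ := h2 N P hN hP
  have hP0 : 0 < P := by linarith
  have hA0 : 0 < A := by linarith
  obtain ⟨X, hX⟩ : ∃ X : ℝ, X = C1 * ((N : ℝ) * P) ^ (ε / 2) * ((N : ℝ) ^ m * P ^ (m ^ 2)) :=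
    ⟨_, rfl⟩
  have hX0 : 0 ≤ X := by rw [hX]; positivity
  -- one block
  have hblk : ∀ r ∈ Finset.range (K + 1),
      2 * P * ∑ i, W i * ∑ n ∈ Bk r, ‖lam i n‖ ^ 2 ≤ X * 2 ^ r := by
    intro r hr
    have hr2 := (hK2 r).1 hr
    refine hRSP S W lam r P (X * 2 ^ r) hF.nn hP (fun b hb => ?_) (by positivity)
    have h3 := h1 N T D hsys P hP S F lam W hF r hr2 b hb 0 0 le_rfl zero_le_one
    have e1 : ∀ t : ℝ, (((0 : ℝ) : ℂ) + ((t : ℂ) + ((0 : ℝ) : ℂ)) * Complex.I) =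
        (t : ℂ) * Complex.I := by
      intro t
      simp
    simp only [e1] at h3
    have e2 : (2 : ℝ) ^ ((r : ℝ) * (1 - 2 * 0)) = 2 ^ r := by
      rw [mul_zero, sub_zero, mul_one, Real.rpow_natCast]
    rw [e2, ← hX] at h3
    exact h3
  -- the indicator
  have hind : ∀ i, (if Sq (lam i) (N * P ^ m) A then 0 else W i) * P ≤
      ∑ r ∈ Finset.range (K + 1), P * (W i * ∑ n ∈ Bk r, ‖lam i n‖ ^ 2) / (A * 2 ^ r) := by
    intro i
    have hnn : ∀ r ∈ Finset.range (K + 1),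
        0 ≤ P * (W i * ∑ n ∈ Bk r, ‖lam i n‖ ^ 2) / (A * 2 ^ r) := by
      intro r _
      have h4 : 0 ≤ ∑ n ∈ Bk r, ‖lam i n‖ ^ 2 := Finset.sum_nonneg fun n _ => by positivity
      have := hF.nn i
      positivity
    split_ifs with hs
    · rw [zero_mul]
      exact Finset.sum_nonneg hnn
    · unfold Sq at hs
      push Not at hs
      obtain ⟨r, hr, hbig⟩ := hs
      have hr' : r ∈ Finset.range (K + 1) := (hK2 r).2 hr
      refine le_trans ?_ (Finset.single_le_sum hnn hr')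
      rw [le_div_iff₀ (by positivity)]
      have h5 : W i * (A * 2 ^ r) ≤ W i * ∑ n ∈ Bk r, ‖lam i n‖ ^ 2 :=
        mul_le_mul_of_nonneg_left hbig.le (hF.nn i)
      have h6 := mul_le_mul_of_nonneg_left h5 hP0.le
      linarith
  have hsum : ∑ i, (if Sq (lam i) (N * P ^ m) A then 0 else W i) * P ≤
      ((K : ℝ) + 1) * (X / A) := by
    refine (Finset.sum_le_sum fun i _ => hind i).trans ?_
    rw [Finset.sum_comm]
    have h7 : ∀ r ∈ Finset.range (K + 1),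
        ∑ i, P * (W i * ∑ n ∈ Bk r, ‖lam i n‖ ^ 2) / (A * 2 ^ r) ≤ X / A := by
      intro r hr
      have h8 := hblk r hr
      have h9 : 0 ≤ ∑ i, W i * ∑ n ∈ Bk r, ‖lam i n‖ ^ 2 :=
        Finset.sum_nonneg fun i _ => mul_nonneg (hF.nn i)
          (Finset.sum_nonneg fun n _ => by positivity)
      rw [← Finset.sum_div, ← Finset.mul_sum, div_le_div_iff₀ (by positivity) hA0]
      have h10 : P * ∑ i, W i * ∑ n ∈ Bk r, ‖lam i n‖ ^ 2 ≤ X * 2 ^ r := by
        have := mul_nonneg hP0.le h9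
        linarith
      have h11 := mul_le_mul_of_nonneg_right h10 hA0.le
      linarith
    refine (Finset.sum_le_sum h7).trans (le_of_eq ?_)
    rw [Finset.sum_const, Finset.card_range, nsmul_eq_mul]
    push_cast
    rfl
  refine hsum.trans ?_
  have hXA : 0 ≤ X / A := div_nonneg hX0 hA0.le
  refine (mul_le_mul_of_nonneg_right hK1 hXA).trans (le_of_eq ?_)
  have hX1 : (0 : ℝ) < (N : ℝ) * P := by
    have : (0 : ℝ) < N := by exact_mod_cast hN
    positivity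
  have e3 : ((N : ℝ) * P) ^ ε = ((N : ℝ) * P) ^ (ε / 2) * ((N : ℝ) * P) ^ (ε / 2) := by
    rw [← Real.rpow_add hX1]
    congr 1
    ring
  rw [hX, e3]
  ring

end Pool.Agent.H36.ZF
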